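import Pool.Agent.Helper44.GN.Defs

set_option autoImplicit false

/-! MP_d210aa_gt, project GN: the derivative of the inverse of the Gram matrix (DIN). -/

open Finset MeasureTheory Filter Topology Matrix
open scoped ENNReal ContDiff

namespace Pool.Agent.Helper44.GN

open Pool.Agent.Helper44.GF

theorem din_upd {n m : ℕ} (V : Matrix (Fin n) (Fin m) ℝ) (y : Fin n → ℝ) (x : Fin n) (s : ℝ) :
    TT V V (Function.update y x s) =
      TT V V y + (s - y x) • Matrix.vecMulVec (V x) (V x) := by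
  ext i j
  unfold TT
  rw [Matrix.add_apply, Matrix.smul_apply, Matrix.vecMulVec_apply, Matrix.mul_apply,
    Matrix.mul_apply]
  simp only [Matrix.mul_diagonal, Matrix.transpose_apply]
  have h : ∑ k, V k i * Function.update y x s k * V k j - ∑ k, V k i * y k * V k j =
      (s - y x) • (V x i * V x j) := by
    rw [← Finset.sum_sub_distrib, Finset.sum_eq_single x]
    · rw [Function.update_self, smul_eq_mul]
      ring
    · intro k _ hk
      rw [Function.update_of_ne hk]
      ring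
    · intro h
      exact absurd (Finset.mem_univ x) h
  linarith

theorem din_sm {m : ℕ} (S : Matrix (Fin m) (Fin m) ℝ) (hS : IsUnit S.det) (v : Fin m → ℝ)
    (h β : ℝ) (hβ : β = v ⬝ᵥ S⁻¹ *ᵥ v) (h1 : 1 + h * β ≠ 0) :
    (S + h • Matrix.vecMulVec v v)⁻¹ =
      S⁻¹ - (h / (1 + h * β)) • (S⁻¹ * Matrix.vecMulVec v v * S⁻¹) := by
  apply Matrix.inv_eq_right_inv
  have e1 : S * S⁻¹ = 1 := Matrix.mul_nonsing_inv S hS
  have e2 : Matrix.vecMulVec v v * (S⁻¹ * Matrix.vecMulVec v v * S⁻¹) =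
      β • (Matrix.vecMulVec v v * S⁻¹) := by
    rw [← Matrix.mul_assoc, Matrix.mul_vecMulVec, Matrix.vecMulVec_mul_vecMulVec, ← hβ,
      Matrix.vecMulVec_smul, Matrix.smul_mul]
  have e3 : S * (S⁻¹ * Matrix.vecMulVec v v * S⁻¹) = Matrix.vecMulVec v v * S⁻¹ := by
    rw [← Matrix.mul_assoc, ← Matrix.mul_assoc, e1, Matrix.one_mul]
  rw [Matrix.add_mul, Matrix.mul_sub, Matrix.mul_sub, Matrix.mul_smul, Matrix.mul_smul, e1, e3,
    Matrix.smul_mul, Matrix.smul_mul, e2, smul_smul, smul_smul]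
  have e4 : h / (1 + h * β) * h * β = h - h / (1 + h * β) := by
    field_simp
    ring
  have e6 : h - h / (1 + h * β) - h / (1 + h * β) * h * β = 0 := by rw [e4]; ring
  refine sub_eq_zero.1 (Eq.trans (b := (h - h / (1 + h * β) - h / (1 + h * β) * h * β) •
    (Matrix.vecMulVec v v * S⁻¹)) ?_ ?_)
  · module
  · rw [e6, zero_smul]

theorem st_DIN (hJ : ST_PJP) : ST_DIN := by
  intro n m V hV y hy x i j
  obtain ⟨hq, _⟩ := hJ n m V hV y hy
  have hS : IsUnit (TT V V y).det := isUnit_iff_ne_zero.2 hq.ne'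
  set β : ℝ := V x ⬝ᵥ (TT V V y)⁻¹ *ᵥ V x with hβ
  set c : ℝ := ((TT V V y)⁻¹ * Matrix.vecMulVec (V x) (V x) * (TT V V y)⁻¹) i j with hc
  have h1 : HasDerivAt (fun s : ℝ => s - y x) 1 (y x) := (hasDerivAt_id (y x)).sub_const (y x)
  have h2 : HasDerivAt (fun s : ℝ => 1 + (s - y x) * β) (1 * β) (y x) :=
    (h1.mul_const β).const_add 1
  have h0 : 1 + (y x - y x) * β ≠ 0 := by
    rw [sub_self, zero_mul, add_zero]
    exact one_ne_zero
  have h3 := h1.div h2 h0
  have h4 : HasDerivAt (fun s : ℝ => (TT V V y)⁻¹ i j - (s - y x) / (1 + (s - y x) * β) * c)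
      (-c) (y x) := by
    have h5 := ((h3.mul_const c).const_sub ((TT V V y)⁻¹ i j))
    have e : -((1 * (1 + (y x - y x) * β) - (y x - y x) * (1 * β)) /
        (1 + (y x - y x) * β) ^ 2 * c) = -c := by
      rw [sub_self]
      simp
    rw [e] at h5
    exact h5
  refine h4.congr_of_eventuallyEq ?_
  have hev : ∀ᶠ s in 𝓝 (y x), 1 + (s - y x) * β ≠ 0 := by
    have hcont : ContinuousAt (fun s : ℝ => 1 + (s - y x) * β) (y x) := h2.continuousAt
    exact hcont.eventually_ne h0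
  filter_upwards [hev] with s hs
  rw [din_upd, din_sm (TT V V y) hS (V x) (s - y x) β hβ hs, Matrix.sub_apply,
    Matrix.smul_apply, smul_eq_mul]

end Pool.Agent.Helper44.GN
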