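import Pool.Agent.Helper67.GN.EN3

set_option autoImplicit false

/-! MP_d210aa_gt, project GN: the entropy bound for `Xf - sg / 2` (EN1). -/

open Finset MeasureTheory Filter Topology Matrix
open scoped ENNReal ContDiff

namespace Pool.Agent.Helper44.GN

open Pool.Agent.Helper44.GF

theorem en1_lg (hQ : ST_DQF) (hS : ST_DSG) (hM : ST_SMO) {n m : ℕ}
    (V W : Matrix (Fin n) (Fin m) ℝ) (hV : Function.Injective V.mulVec)
    (hW : Function.Injective W.mulVec) (τ : ℝ) :
    LG (fun y => τ * (Xf V W y - 1 / 2 * sg V W y))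
      (fun x y => τ * (1 / 2 * (lv W y x - lv V y x) - 1 / 2 * gs V W y x)) := by
  obtain ⟨s1, s2, s3, _, s5⟩ := hM n m V W hV hW
  obtain ⟨t1, _, t3, _, _⟩ := hM n m W V hW hV
  refine ⟨?_, ?_, ?_⟩
  · unfold Xf
    exact contDiffOn_const.mul ((contDiffOn_const.mul (t1.sub s1)).sub (contDiffOn_const.mul s2))
  · intro x
    exact continuousOn_const.mul ((continuousOn_const.mul ((t3 x).sub (s3 x))).sub
      (continuousOn_const.mul (s5 x)))
  · intro y hy x
    have h1 := hQ n m V hV y hy x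
    have h2 := hQ n m W hW y hy x
    have h3 := hS n m V W hV hW y hy x
    have h4 := ((((h2.sub h1).const_mul (1 / 2)).sub (h3.const_mul (1 / 2))).const_mul τ)
    have e : τ * (1 / 2 * (lv W y x - lv V y x) - 1 / 2 * gs V W y x) / y x =
        τ * (1 / 2 * (lv W y x / y x - lv V y x / y x) - 1 / 2 * (gs V W y x / y x)) := by
      ring
    simp only [e]
    exact h4

theorem st_EN1 (hG : ST_ENG) (hF : ST_FCT) (hQ : ST_DQF) (hS : ST_DSG) (hM : ST_SMO) :
    ST_EN1 := by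
  intro n m V W α a δ τ hV hW hP hτ0 hτ1
  have hfact := fun y (hy : y ∈ Og n) => hF n m V W hV hW y hy
  have hLG := en1_lg hQ hS hM V W hV hW τ
  have hmain := hG n m V W α a δ (1 / 2) (2 * τ ^ 2)
    (fun y => τ * (Xf V W y - 1 / 2 * sg V W y))
    (fun x y => τ * (1 / 2 * (lv W y x - lv V y x) - 1 / 2 * gs V W y x)) hV hW hP
    (by norm_num) (by norm_num) (by positivity) hLG
    (by
      intro y hy x
      obtain ⟨_, _, _, _, hx⟩ := hfact y hy
      obtain ⟨p0, p1, q0, q1, _, _, _, _, _, _, _, g1, g2⟩ := hx x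
      nlinarith)
    (by
      intro y hy x
      obtain ⟨_, _, _, _, hx⟩ := hfact y hy
      obtain ⟨p0, p1, q0, q1, _, _, _, _, gp, gq, _, g1, g2⟩ := hx x
      nlinarith)
    (by
      intro y hy x
      obtain ⟨_, _, _, _, hx⟩ := hfact y hy
      obtain ⟨p0, p1, q0, q1, _, _, _, _, gp, gq, _, g1, g2⟩ := hx x
      have h1 : τ * (1 / 2 * (lv W y x - lv V y x) - 1 / 2 * gs V W y x) ≤
          τ * (1 / 2 * lv W y x) := mul_le_mul_of_nonneg_left (by linarith) hτ0
      have h2 : τ * (1 / 2 * lv W y x) ≤ 1 * (1 / 2 * lv W y x) :=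
        mul_le_mul_of_nonneg_right hτ1 (by linarith)
      linarith)
    (by
      intro y hy x
      obtain ⟨_, _, _, _, hx⟩ := hfact y hy
      obtain ⟨p0, p1, q0, q1, d0, d1, c1, c2, gp, gq, _, g1, g2⟩ := hx x
      have e : (τ * (1 / 2 * (lv W y x - lv V y x) - 1 / 2 * gs V W y x)) ^ 2 =
          τ ^ 2 * (1 / 4 * ((lv W y x - lv V y x) - gs V W y x) ^ 2) := by ring
      have h1 : 1 / 4 * ((lv W y x - lv V y x) - gs V W y x) ^ 2 ≤
          2 * ((lv V y x + lv W y x) * d2 V W y x) := by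
        nlinarith [sq_nonneg ((lv W y x - lv V y x) + gs V W y x)]
      have h2 := mul_le_mul_of_nonneg_left h1 (sq_nonneg τ)
      rw [e]
      linarith)
  refine hmain.trans ?_
  have hI := en3_ib hF V W hV hW hP
    (fun z => τ * (Xf V W (Yv α a z) - 1 / 2 * sg V W (Yv α a z)))
  apply mul_le_mul_of_nonneg_right _ hI
  obtain ⟨c1, c2⟩ := en3_const hP
  have hα : 0 < α := by linarith [hP.al]
  have e1 : 16 * (2 * τ ^ 2) / (3 * α ^ 2 * (1 / 2)) * (2 * (1 - α) + 5 * a) =
      64 / 3 * τ ^ 2 * ((2 * (1 - α) + 5 * a) / α ^ 2) := by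
    field_simp
    ring
  rw [e1]
  have h1 : 64 / 3 * τ ^ 2 * ((2 * (1 - α) + 5 * a) / α ^ 2) ≤
      64 / 3 * τ ^ 2 * (10125 / 990025) :=
    mul_le_mul_of_nonneg_left c2 (by positivity)
  nlinarith [sq_nonneg τ]

end Pool.Agent.Helper44.GN
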