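import Pool.Agent.Helper44.GN.Defs

set_option autoImplicit false

/-! MP_d210aa_gt, project GN: the entropy bound for `sg` (EN3). -/

open Finset MeasureTheory Filter Topology Matrix
open scoped ENNReal ContDiff

namespace Pool.Agent.Helper44.GN

open Pool.Agent.Helper44.GF

theorem en3_Og {n : ℕ} {α a δ : ℝ} (h : Pm α a δ) {z : Fin n → ℝ} (hz : z ∈ Bx n δ) :
    Yv α a z ∈ Og n := by
  intro x
  have h1 : 0 < z x := lt_of_lt_of_le h.d0 (hz x (Set.mem_univ x)).1
  have h2 := h.a0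
  change 0 < 1 + a * z x ^ (-(4 / α))
  have h3 : 0 < z x ^ (-(4 / α)) := Real.rpow_pos_of_pos h1 _
  positivity

theorem en3_ib (hF : ST_FCT) {n m : ℕ} (V W : Matrix (Fin n) (Fin m) ℝ) {α a δ : ℝ}
    (hV : Function.Injective V.mulVec) (hW : Function.Injective W.mulVec) (h : Pm α a δ)
    (g : (Fin n → ℝ) → ℝ) :
    0 ≤ IB δ (rho V α a) (fun z => Real.exp (g z) * sg V W (Yv α a z)) := by
  unfold IB
  apply setIntegral_nonneg
  · exact MeasurableSet.univ_pi fun _ => measurableSet_Icc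
  · intro z hz
    have hO := en3_Og h hz
    obtain ⟨h1, h2, h3, _⟩ := hF n m V W hV hW _ hO
    have h4 : 0 ≤ rho V α a z := by
      unfold rho wz
      apply mul_nonneg
      · apply Finset.prod_nonneg
        intro x _
        have h1 : 0 < z x := lt_of_lt_of_le h.d0 (hz x (Set.mem_univ x)).1
        positivity
      · exact Real.rpow_nonneg h1.le _
    have h5 := Real.exp_pos (g z)
    positivity

theorem en3_const {α a δ : ℝ} (h : Pm α a δ) : 0 ≤ 2 * (1 - α) + 5 * a ∧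
    (2 * (1 - α) + 5 * a) / α ^ 2 ≤ 10125 / 990025 := by
  have h1 := h.al
  have h2 := h.au
  have h3 := h.a0
  have h4 := h.a1
  have h5 : 0 < α := by linarith
  refine ⟨by linarith, ?_⟩
  rw [div_le_div_iff₀ (by positivity) (by norm_num)]
  have h6 : 990025 / 1000000 ≤ α ^ 2 := by nlinarith
  nlinarith

theorem st_EN3 (hG : ST_ENG) (hF : ST_FCT) (hS : ST_DSG) (hM : ST_SMO) : ST_EN3 := by
  intro n m V W α a δ τ hV hW hP hτ0 hτ1
  obtain ⟨_, s2, s3, s4, s5⟩ := hM n m V W hV hW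
  have hfact := fun y (hy : y ∈ Og n) => hF n m V W hV hW y hy
  have hLG : LG (fun y => τ * sg V W y) (fun x y => τ * gs V W y x) := by
    refine ⟨contDiffOn_const.mul s2, fun x => continuousOn_const.mul (s5 x), ?_⟩
    intro y hy x
    have h1 := (hS n m V W hV hW y hy x).const_mul τ
    rw [mul_div_assoc]
    exact h1
  have hmain := hG n m V W α a δ (1 / 3) (2 * τ ^ 2) (fun y => τ * sg V W y)
    (fun x y => τ * gs V W y x) hV hW hP (by norm_num) (by norm_num) (by positivity) hLG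
    (by
      intro y hy x
      obtain ⟨_, _, _, _, hx⟩ := hfact y hy
      obtain ⟨_, _, _, _, _, _, _, _, _, _, _, _, e⟩ := hx x
      nlinarith)
    (by
      intro y hy x
      obtain ⟨_, _, _, _, hx⟩ := hfact y hy
      obtain ⟨_, _, _, _, _, _, _, _, _, _, _, e, _⟩ := hx x
      nlinarith)
    (by
      intro y hy x
      obtain ⟨_, _, _, _, hx⟩ := hfact y hy
      obtain ⟨p0, _, q0, _, d0, d1, _, _, _, _, gd, e, _⟩ := hx x
      have h1 : τ * gs V W y x ≤ τ * d2 V W y x := mul_le_mul_of_nonneg_left gd hτ0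
      have h2 : τ * d2 V W y x ≤ 1 / 3 * d2 V W y x := mul_le_mul_of_nonneg_right hτ1 d0
      linarith)
    (by
      intro y hy x
      obtain ⟨_, _, _, _, hx⟩ := hfact y hy
      obtain ⟨p0, _, q0, _, d0, d1, _, g2, _⟩ := hx x
      rw [mul_pow]
      have h1 : τ ^ 2 * gs V W y x ^ 2 ≤ τ ^ 2 * (2 * (lv V y x + lv W y x) * d2 V W y x) :=
        mul_le_mul_of_nonneg_left g2 (sq_nonneg τ)
      linarith)
  refine hmain.trans ?_
  have hI := en3_ib hF V W hV hW hP (fun z => τ * sg V W (Yv α a z))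
  apply mul_le_mul_of_nonneg_right _ hI
  obtain ⟨c1, c2⟩ := en3_const hP
  have hα : 0 < α := by linarith [hP.al]
  have e1 : 16 * (2 * τ ^ 2) / (3 * α ^ 2 * (1 / 3)) * (2 * (1 - α) + 5 * a) =
      32 * τ ^ 2 * ((2 * (1 - α) + 5 * a) / α ^ 2) := by
    field_simp
    ring
  rw [e1]
  have h1 : 32 * τ ^ 2 * ((2 * (1 - α) + 5 * a) / α ^ 2) ≤ 32 * τ ^ 2 * (10125 / 990025) :=
    mul_le_mul_of_nonneg_left c2 (by positivity)
  nlinarith [sq_nonneg τ]

end Pool.Agent.Helper44.GN
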