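import Pool.Agent.Helper44.GN.Defs

set_option autoImplicit false

/-! MP_d210aa_gt, project GN: the facts on the quantities of the model (FCT). -/

open Finset MeasureTheory Filter Topology Matrix
open scoped ENNReal ContDiff

namespace Pool.Agent.Helper44.GN

open Pool.Agent.Helper44.GF

theorem st_FCT (hP : ST_PRJ) (hJ : ST_PJP) : ST_FCT := by
  intro n m V W hV hW y hy
  obtain ⟨v1, v2, v3, v4⟩ := hJ n m V hV y hy
  obtain ⟨w1, w2, w3, w4⟩ := hJ n m W hW y hy
  have hx := fun x : Fin n => hP n (PJ V y) (PJ W y) v2 v3 w2 w3 x (lv V y x) (lv W y x)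
    (kp V W y x) (d2 V W y x) (gs V W y x) rfl rfl rfl rfl rfl
  have hsum : ∑ x, d2 V W y x = 2 * sg V W y := by
    have h1 : ∑ x, d2 V W y x = ∑ x, PJ V y x x + ∑ x, PJ W y x x
        - 2 * ∑ x, (PJ V y * PJ W y) x x := by
      unfold d2 lv kp
      rw [Finset.sum_sub_distrib, Finset.sum_add_distrib, ← Finset.mul_sum]
    have h2 : ∑ x, PJ V y x x = (m : ℝ) := v4
    have h3 : ∑ x, PJ W y x x = (m : ℝ) := w4
    have h4 : ∑ x, (PJ V y * PJ W y) x x = Matrix.trace (PJ V y * PJ W y) := rfl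
    rw [h1, h2, h3, h4]
    unfold sg
    ring
  refine ⟨v1, w1, ?_, hsum, ?_⟩
  · have h5 : 0 ≤ ∑ x, d2 V W y x := Finset.sum_nonneg fun x _ => (hx x).2.2.2.2.1
    rw [hsum] at h5
    linarith
  · intro x
    exact hx x

end Pool.Agent.Helper44.GN
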