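import Pool.Agent.Helper44.GN.Defs

set_option autoImplicit false

/-! MP_d210aa_gt, project GN: the derivative of the logarithm of the Laplace transform (LGI). -/

open Finset MeasureTheory Filter Topology Matrix
open scoped ENNReal ContDiff

namespace Pool.Agent.Helper44.GN

open Pool.Agent.Helper44.GF

theorem lgi_cpt (n : ℕ) (δ : ℝ) : IsCompact (Bx n δ) := isCompact_univ_pi fun _ => isCompact_Icc

theorem lgi_meas (n : ℕ) (δ : ℝ) : MeasurableSet (Bx n δ) :=
  MeasurableSet.univ_pi fun _ => measurableSet_Icc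

theorem lgi_vol (n : ℕ) (δ : ℝ) (h : δ < 1) : 0 < (volume : Measure (Fin n → ℝ)) (Bx n δ) := by
  unfold Bx
  rw [volume_pi_pi]
  simp only [Real.volume_Icc]
  rw [pos_iff_ne_zero, Finset.prod_ne_zero_iff]
  intro _ _
  rw [← pos_iff_ne_zero, ENNReal.ofReal_pos]
  linarith

theorem lgi_int {n : ℕ} {δ : ℝ} {f : (Fin n → ℝ) → ℝ} (hf : ContinuousOn f (Bx n δ)) :
    IntegrableOn f (Bx n δ) volume := hf.integrableOn_compact (lgi_cpt n δ)

theorem lgi_pos {n : ℕ} {δ : ℝ} (h : δ < 1) {f : (Fin n → ℝ) → ℝ}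
    (hf : ContinuousOn f (Bx n δ)) (h0 : ∀ z ∈ Bx n δ, 0 < f z) : 0 < ∫ z in Bx n δ, f z := by
  rw [setIntegral_pos_iff_support_of_nonneg_ae ?_ (lgi_int hf)]
  · have e : Function.support f ∩ Bx n δ = Bx n δ := by
      apply Set.inter_eq_self_of_subset_right
      intro z hz
      exact (h0 z hz).ne'
    rw [e]
    exact lgi_vol n δ h
  · exact (ae_restrict_iff' (lgi_meas n δ)).2 (Eventually.of_forall fun z hz => (h0 z hz).le)

theorem lgi_der {n : ℕ} {δ : ℝ} {ρ F : (Fin n → ℝ) → ℝ} (hρ : ContinuousOn ρ (Bx n δ))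
    (hF : ContinuousOn F (Bx n δ)) (t : ℝ) :
    HasDerivAt (fun t => IB δ ρ (fun z => Real.exp (t * F z)))
      (IB δ ρ (fun z => F z * Real.exp (t * F z))) t := by
  unfold IB
  obtain ⟨M, hM⟩ := (lgi_cpt n δ).exists_bound_of_continuousOn hF
  obtain ⟨R, hR⟩ := (lgi_cpt n δ).exists_bound_of_continuousOn hρ
  have hc : ∀ s : ℝ, ContinuousOn (fun z => Real.exp (s * F z)) (Bx n δ) := fun s =>
    (continuousOn_const.mul hF).rexp
  have hvol : (volume : Measure (Fin n → ℝ)) (Bx n δ) < ⊤ := (lgi_cpt n δ).measure_lt_top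
  have key := hasDerivAt_integral_of_dominated_loc_of_deriv_le
    (μ := (volume : Measure (Fin n → ℝ)).restrict (Bx n δ)) (x₀ := t) (s := Metric.ball t 1)
    (F := fun s z => Real.exp (s * F z) * ρ z)
    (F' := fun s z => F z * Real.exp (s * F z) * ρ z)
    (bound := fun _ => M * Real.exp ((|t| + 1) * M) * R)
    (Metric.ball_mem_nhds t one_pos)
    (Eventually.of_forall fun s => (lgi_int ((hc s).mul hρ)).aestronglyMeasurable)
    (lgi_int ((hc t).mul hρ))
    (lgi_int ((hF.mul (hc t)).mul hρ)).aestronglyMeasurable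
    ((ae_restrict_iff' (lgi_meas n δ)).2 (Eventually.of_forall (by
      intro z hz s hs
      have h1 := hM z hz
      have h2 := hR z hz
      rw [Real.norm_eq_abs] at h1 h2
      have h0M : 0 ≤ M := (abs_nonneg _).trans h1
      have hs' : |s| ≤ |t| + 1 := by
        rw [Metric.mem_ball, Real.dist_eq] at hs
        have h3 : |s| ≤ |s - t| + |t| := by
          have := abs_add_le (s - t) t
          rwa [sub_add_cancel] at this
        linarith
      rw [norm_mul, norm_mul, Real.norm_eq_abs, Real.norm_eq_abs, Real.norm_eq_abs,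
        abs_of_pos (Real.exp_pos _)]
      have h4 : s * F z ≤ (|t| + 1) * M := by
        calc s * F z ≤ |s * F z| := le_abs_self _
          _ = |s| * |F z| := abs_mul _ _
          _ ≤ (|t| + 1) * M := mul_le_mul hs' h1 (abs_nonneg _) (by positivity)
      have h5 := Real.exp_le_exp.2 h4
      apply mul_le_mul _ h2 (abs_nonneg _) (by positivity)
      exact mul_le_mul h1 h5 (Real.exp_pos _).le h0M)))
    (integrableOn_const hvol.ne)
    ((ae_restrict_iff' (lgi_meas n δ)).2 (Eventually.of_forall (by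
      intro z hz s hs
      have h1 : HasDerivAt (fun s : ℝ => s * F z) (F z) s := by
        simpa using (hasDerivAt_id s).mul_const (F z)
      have h2 := (h1.exp).mul_const (ρ z)
      have e : Real.exp (s * F z) * F z * ρ z = F z * Real.exp (s * F z) * ρ z := by ring
      rw [e] at h2
      exact h2)))
  exact key.2

theorem st_LGI : ST_LGI := by
  intro n δ ρ F hW hF
  have hexp : ∀ t : ℝ, 0 < IB δ ρ (fun z => Real.exp (t * F z)) := by
    intro t
    unfold IB
    apply lgi_pos hW.d1
    · exact (continuousOn_const.mul hF).rexp.mul hW.rc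
    · intro z hz
      exact mul_pos (Real.exp_pos _) (hW.r0 z hz)
  have hone : 0 < IB δ ρ (fun _ => 1) := by
    unfold IB
    apply lgi_pos hW.d1
    · exact continuousOn_const.mul hW.rc
    · intro z hz
      rw [one_mul]
      exact hW.r0 z hz
  refine ⟨hexp, hone, ?_⟩
  intro t
  have h1 := ((lgi_der hW.rc hF t).div_const (IB δ ρ (fun _ => 1))).log
    (div_pos (hexp t) hone).ne'
  have e : IB δ ρ (fun z => F z * Real.exp (t * F z)) / IB δ ρ (fun _ => 1) /
      (IB δ ρ (fun z => Real.exp (t * F z)) / IB δ ρ (fun _ => 1)) =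
      IB δ ρ (fun z => F z * Real.exp (t * F z)) / IB δ ρ (fun z => Real.exp (t * F z)) :=
    div_div_div_cancel_right₀ hone.ne' _ _
  rw [e] at h1
  exact h1

end Pool.Agent.Helper44.GN
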